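import Pool.Agent.N444.Two.D1.Part

set_option autoImplicit false
set_option maxRecDepth 100000
set_option linter.defProp false

namespace Pool.Agent.N444.Two.D1
open Pool.Agent.N444.Two Pool.Agent.H122R2.N6

def p0000000 : part 0 0 0 0 0 0 0 = true := by decide +kernel
def p0000001 : part 0 0 0 0 0 0 1 = true := by decide +kernel
def p0000010 : part 0 0 0 0 0 1 0 = true := by decide +kernel
def p0000011 : part 0 0 0 0 0 1 1 = true := by decide +kernel
def p0000100 : part 0 0 0 0 1 0 0 = true := by decide +kernel
def p0000101 : part 0 0 0 0 1 0 1 = true := by decide +kernel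
def p0000110 : part 0 0 0 0 1 1 0 = true := by decide +kernel
def p0000111 : part 0 0 0 0 1 1 1 = true := by decide +kernel
def p0001000 : part 0 0 0 1 0 0 0 = true := by decide +kernel
def p0001001 : part 0 0 0 1 0 0 1 = true := by decide +kernel
def p0001010 : part 0 0 0 1 0 1 0 = true := by decide +kernel
def p0001011 : part 0 0 0 1 0 1 1 = true := by decide +kernel
def p0001100 : part 0 0 0 1 1 0 0 = true := by decide +kernel
def p0001101 : part 0 0 0 1 1 0 1 = true := by decide +kernel
def p0001110 : part 0 0 0 1 1 1 0 = true := by decide +kernel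
def p0001111 : part 0 0 0 1 1 1 1 = true := by decide +kernel
def p0010000 : part 0 0 1 0 0 0 0 = true := by decide +kernel
def p0010001 : part 0 0 1 0 0 0 1 = true := by decide +kernel
def p0010010 : part 0 0 1 0 0 1 0 = true := by decide +kernel
def p0010011 : part 0 0 1 0 0 1 1 = true := by decide +kernel
def p0010100 : part 0 0 1 0 1 0 0 = true := by decide +kernel
def p0010101 : part 0 0 1 0 1 0 1 = true := by decide +kernel
def p0010110 : part 0 0 1 0 1 1 0 = true := by decide +kernel
def p0010111 : part 0 0 1 0 1 1 1 = true := by decide +kernel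
def p0011000 : part 0 0 1 1 0 0 0 = true := by decide +kernel
def p0011001 : part 0 0 1 1 0 0 1 = true := by decide +kernel
def p0011010 : part 0 0 1 1 0 1 0 = true := by decide +kernel
def p0011011 : part 0 0 1 1 0 1 1 = true := by decide +kernel
def p0011100 : part 0 0 1 1 1 0 0 = true := by decide +kernel
def p0011101 : part 0 0 1 1 1 0 1 = true := by decide +kernel
def p0011110 : part 0 0 1 1 1 1 0 = true := by decide +kernel
def p0011111 : part 0 0 1 1 1 1 1 = true := by decide +kernel

end Pool.Agent.N444.Two.D1
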