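import Pool.Agent.N444.Two.D1.Part

set_option autoImplicit false
set_option maxRecDepth 100000
set_option linter.defProp false

namespace Pool.Agent.N444.Two.D1
open Pool.Agent.N444.Two Pool.Agent.H122R2.N6

def p1000000 : part 1 0 0 0 0 0 0 = true := by decide +kernel
def p1000001 : part 1 0 0 0 0 0 1 = true := by decide +kernel
def p1000010 : part 1 0 0 0 0 1 0 = true := by decide +kernel
def p1000011 : part 1 0 0 0 0 1 1 = true := by decide +kernel
def p1000100 : part 1 0 0 0 1 0 0 = true := by decide +kernel
def p1000101 : part 1 0 0 0 1 0 1 = true := by decide +kernel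
def p1000110 : part 1 0 0 0 1 1 0 = true := by decide +kernel
def p1000111 : part 1 0 0 0 1 1 1 = true := by decide +kernel
def p1001000 : part 1 0 0 1 0 0 0 = true := by decide +kernel
def p1001001 : part 1 0 0 1 0 0 1 = true := by decide +kernel
def p1001010 : part 1 0 0 1 0 1 0 = true := by decide +kernel
def p1001011 : part 1 0 0 1 0 1 1 = true := by decide +kernel
def p1001100 : part 1 0 0 1 1 0 0 = true := by decide +kernel
def p1001101 : part 1 0 0 1 1 0 1 = true := by decide +kernel
def p1001110 : part 1 0 0 1 1 1 0 = true := by decide +kernel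
def p1001111 : part 1 0 0 1 1 1 1 = true := by decide +kernel
def p1010000 : part 1 0 1 0 0 0 0 = true := by decide +kernel
def p1010001 : part 1 0 1 0 0 0 1 = true := by decide +kernel
def p1010010 : part 1 0 1 0 0 1 0 = true := by decide +kernel
def p1010011 : part 1 0 1 0 0 1 1 = true := by decide +kernel
def p1010100 : part 1 0 1 0 1 0 0 = true := by decide +kernel
def p1010101 : part 1 0 1 0 1 0 1 = true := by decide +kernel
def p1010110 : part 1 0 1 0 1 1 0 = true := by decide +kernel
def p1010111 : part 1 0 1 0 1 1 1 = true := by decide +kernel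
def p1011000 : part 1 0 1 1 0 0 0 = true := by decide +kernel
def p1011001 : part 1 0 1 1 0 0 1 = true := by decide +kernel
def p1011010 : part 1 0 1 1 0 1 0 = true := by decide +kernel
def p1011011 : part 1 0 1 1 0 1 1 = true := by decide +kernel
def p1011100 : part 1 0 1 1 1 0 0 = true := by decide +kernel
def p1011101 : part 1 0 1 1 1 0 1 = true := by decide +kernel
def p1011110 : part 1 0 1 1 1 1 0 = true := by decide +kernel
def p1011111 : part 1 0 1 1 1 1 1 = true := by decide +kernel

end Pool.Agent.N444.Two.D1
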