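import Pool.Agent.N444.Two.D1.Part

set_option autoImplicit false
set_option maxRecDepth 100000
set_option linter.defProp false

namespace Pool.Agent.N444.Two.D1
open Pool.Agent.N444.Two Pool.Agent.H122R2.N6

def p0100000 : part 0 1 0 0 0 0 0 = true := by decide +kernel
def p0100001 : part 0 1 0 0 0 0 1 = true := by decide +kernel
def p0100010 : part 0 1 0 0 0 1 0 = true := by decide +kernel
def p0100011 : part 0 1 0 0 0 1 1 = true := by decide +kernel
def p0100100 : part 0 1 0 0 1 0 0 = true := by decide +kernel
def p0100101 : part 0 1 0 0 1 0 1 = true := by decide +kernel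
def p0100110 : part 0 1 0 0 1 1 0 = true := by decide +kernel
def p0100111 : part 0 1 0 0 1 1 1 = true := by decide +kernel
def p0101000 : part 0 1 0 1 0 0 0 = true := by decide +kernel
def p0101001 : part 0 1 0 1 0 0 1 = true := by decide +kernel
def p0101010 : part 0 1 0 1 0 1 0 = true := by decide +kernel
def p0101011 : part 0 1 0 1 0 1 1 = true := by decide +kernel
def p0101100 : part 0 1 0 1 1 0 0 = true := by decide +kernel
def p0101101 : part 0 1 0 1 1 0 1 = true := by decide +kernel
def p0101110 : part 0 1 0 1 1 1 0 = true := by decide +kernel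
def p0101111 : part 0 1 0 1 1 1 1 = true := by decide +kernel
def p0110000 : part 0 1 1 0 0 0 0 = true := by decide +kernel
def p0110001 : part 0 1 1 0 0 0 1 = true := by decide +kernel
def p0110010 : part 0 1 1 0 0 1 0 = true := by decide +kernel
def p0110011 : part 0 1 1 0 0 1 1 = true := by decide +kernel
def p0110100 : part 0 1 1 0 1 0 0 = true := by decide +kernel
def p0110101 : part 0 1 1 0 1 0 1 = true := by decide +kernel
def p0110110 : part 0 1 1 0 1 1 0 = true := by decide +kernel
def p0110111 : part 0 1 1 0 1 1 1 = true := by decide +kernel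
def p0111000 : part 0 1 1 1 0 0 0 = true := by decide +kernel
def p0111001 : part 0 1 1 1 0 0 1 = true := by decide +kernel
def p0111010 : part 0 1 1 1 0 1 0 = true := by decide +kernel
def p0111011 : part 0 1 1 1 0 1 1 = true := by decide +kernel
def p0111100 : part 0 1 1 1 1 0 0 = true := by decide +kernel
def p0111101 : part 0 1 1 1 1 0 1 = true := by decide +kernel
def p0111110 : part 0 1 1 1 1 1 0 = true := by decide +kernel
def p0111111 : part 0 1 1 1 1 1 1 = true := by decide +kernel

end Pool.Agent.N444.Two.D1
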