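import Pool.Agent.N444.Two.D1.Part

set_option autoImplicit false
set_option maxRecDepth 100000
set_option linter.defProp false

namespace Pool.Agent.N444.Two.D1
open Pool.Agent.N444.Two Pool.Agent.H122R2.N6

def p1100000 : part 1 1 0 0 0 0 0 = true := by decide +kernel
def p1100001 : part 1 1 0 0 0 0 1 = true := by decide +kernel
def p1100010 : part 1 1 0 0 0 1 0 = true := by decide +kernel
def p1100011 : part 1 1 0 0 0 1 1 = true := by decide +kernel
def p1100100 : part 1 1 0 0 1 0 0 = true := by decide +kernel
def p1100101 : part 1 1 0 0 1 0 1 = true := by decide +kernel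
def p1100110 : part 1 1 0 0 1 1 0 = true := by decide +kernel
def p1100111 : part 1 1 0 0 1 1 1 = true := by decide +kernel
def p1101000 : part 1 1 0 1 0 0 0 = true := by decide +kernel
def p1101001 : part 1 1 0 1 0 0 1 = true := by decide +kernel
def p1101010 : part 1 1 0 1 0 1 0 = true := by decide +kernel
def p1101011 : part 1 1 0 1 0 1 1 = true := by decide +kernel
def p1101100 : part 1 1 0 1 1 0 0 = true := by decide +kernel
def p1101101 : part 1 1 0 1 1 0 1 = true := by decide +kernel
def p1101110 : part 1 1 0 1 1 1 0 = true := by decide +kernel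
def p1101111 : part 1 1 0 1 1 1 1 = true := by decide +kernel
def p1110000 : part 1 1 1 0 0 0 0 = true := by decide +kernel
def p1110001 : part 1 1 1 0 0 0 1 = true := by decide +kernel
def p1110010 : part 1 1 1 0 0 1 0 = true := by decide +kernel
def p1110011 : part 1 1 1 0 0 1 1 = true := by decide +kernel
def p1110100 : part 1 1 1 0 1 0 0 = true := by decide +kernel
def p1110101 : part 1 1 1 0 1 0 1 = true := by decide +kernel
def p1110110 : part 1 1 1 0 1 1 0 = true := by decide +kernel
def p1110111 : part 1 1 1 0 1 1 1 = true := by decide +kernel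
def p1111000 : part 1 1 1 1 0 0 0 = true := by decide +kernel
def p1111001 : part 1 1 1 1 0 0 1 = true := by decide +kernel
def p1111010 : part 1 1 1 1 0 1 0 = true := by decide +kernel
def p1111011 : part 1 1 1 1 0 1 1 = true := by decide +kernel
def p1111100 : part 1 1 1 1 1 0 0 = true := by decide +kernel
def p1111101 : part 1 1 1 1 1 0 1 = true := by decide +kernel
def p1111110 : part 1 1 1 1 1 1 0 = true := by decide +kernel
def p1111111 : part 1 1 1 1 1 1 1 = true := by decide +kernel

end Pool.Agent.N444.Two.D1
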