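import Pool.Agent.N444.Two.D1.Row

set_option autoImplicit false
set_option maxRecDepth 100000
set_option linter.defProp false

namespace Pool.Agent.N444.Two.D1
open Pool.Agent.N444.Two Pool.Agent.H122R2.N6

def y0_0 : blk 0 0 = true := by decide +kernel
def y0_1 : blk 0 1 = true := by decide +kernel
def y0_3 : blk 0 3 = true := by decide +kernel
def y0_5 : blk 0 5 = true := by decide +kernel
def y0_6 : blk 0 6 = true := by decide +kernel
def y0_7 : blk 0 7 = true := by decide +kernel
def y1_4 : blk 1 4 = true := by decide +kernel
def y1_5 : blk 1 5 = true := by decide +kernel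
def y1_6 : blk 1 6 = true := by decide +kernel
def y1_7 : blk 1 7 = true := by decide +kernel
def y2_0 : blk 2 0 = true := by decide +kernel
def y2_2 : blk 2 2 = true := by decide +kernel
def y2_6 : blk 2 6 = true := by decide +kernel
def y2_7 : blk 2 7 = true := by decide +kernel
def y3_3 : blk 3 3 = true := by decide +kernel
def y4_1 : blk 4 1 = true := by decide +kernel
def y4_2 : blk 4 2 = true := by decide +kernel
def y4_5 : blk 4 5 = true := by decide +kernel
def y4_7 : blk 4 7 = true := by decide +kernel
def y5_0 : blk 5 0 = true := by decide +kernel
def y5_4 : blk 5 4 = true := by decide +kernel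
def y5_5 : blk 5 5 = true := by decide +kernel
def y5_6 : blk 5 6 = true := by decide +kernel
def y5_7 : blk 5 7 = true := by decide +kernel
def y6_0 : blk 6 0 = true := by decide +kernel
def y6_5 : blk 6 5 = true := by decide +kernel
def y6_6 : blk 6 6 = true := by decide +kernel
def y6_7 : blk 6 7 = true := by decide +kernel
def y7_0 : blk 7 0 = true := by decide +kernel
def y7_1 : blk 7 1 = true := by decide +kernel
def y7_7 : blk 7 7 = true := by decide +kernel
def y8_2 : blk 8 2 = true := by decide +kernel
def y8_4 : blk 8 4 = true := by decide +kernel
def y8_6 : blk 8 6 = true := by decide +kernel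
def y8_7 : blk 8 7 = true := by decide +kernel
def y9_5 : blk 9 5 = true := by decide +kernel
def y9_7 : blk 9 7 = true := by decide +kernel
def y10_4 : blk 10 4 = true := by decide +kernel
def y10_7 : blk 10 7 = true := by decide +kernel
def y11_4 : blk 11 4 = true := by decide +kernel
def y11_5 : blk 11 5 = true := by decide +kernel
def y11_6 : blk 11 6 = true := by decide +kernel
def y11_7 : blk 11 7 = true := by decide +kernel
def y12_5 : blk 12 5 = true := by decide +kernel
def y12_6 : blk 12 6 = true := by decide +kernel
def y12_7 : blk 12 7 = true := by decide +kernel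
def y13_0 : blk 13 0 = true := by decide +kernel
def y13_5 : blk 13 5 = true := by decide +kernel
def y13_6 : blk 13 6 = true := by decide +kernel
def y13_7 : blk 13 7 = true := by decide +kernel
def y14_6 : blk 14 6 = true := by decide +kernel
def y14_7 : blk 14 7 = true := by decide +kernel
def y15_2 : blk 15 2 = true := by decide +kernel
def y15_4 : blk 15 4 = true := by decide +kernel
def y15_6 : blk 15 6 = true := by decide +kernel
def y15_7 : blk 15 7 = true := by decide +kernel
def y16_1 : blk 16 1 = true := by decide +kernel
def y16_2 : blk 16 2 = true := by decide +kernel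
def y16_4 : blk 16 4 = true := by decide +kernel
def y16_5 : blk 16 5 = true := by decide +kernel
def y16_7 : blk 16 7 = true := by decide +kernel
def y17_7 : blk 17 7 = true := by decide +kernel
def y18_4 : blk 18 4 = true := by decide +kernel
def y18_5 : blk 18 5 = true := by decide +kernel
def y18_6 : blk 18 6 = true := by decide +kernel
def y18_7 : blk 18 7 = true := by decide +kernel
def y19_5 : blk 19 5 = true := by decide +kernel
def y19_6 : blk 19 6 = true := by decide +kernel
def y19_7 : blk 19 7 = true := by decide +kernel
def y20_1 : blk 20 1 = true := by decide +kernel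
def y20_5 : blk 20 5 = true := by decide +kernel
def y20_6 : blk 20 6 = true := by decide +kernel
def y20_7 : blk 20 7 = true := by decide +kernel
def y21_1 : blk 21 1 = true := by decide +kernel
def y21_3 : blk 21 3 = true := by decide +kernel
def y21_6 : blk 21 6 = true := by decide +kernel
def y21_7 : blk 21 7 = true := by decide +kernel
def y22_3 : blk 22 3 = true := by decide +kernel
def y22_4 : blk 22 4 = true := by decide +kernel
def y22_5 : blk 22 5 = true := by decide +kernel
def y22_6 : blk 22 6 = true := by decide +kernel
def y22_7 : blk 22 7 = true := by decide +kernel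
def y23_1 : blk 23 1 = true := by decide +kernel
def y23_6 : blk 23 6 = true := by decide +kernel
def y23_7 : blk 23 7 = true := by decide +kernel

end Pool.Agent.N444.Two.D1
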