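import Pool.Agent.N444.Two.D1.Row

set_option autoImplicit false
set_option maxRecDepth 100000
set_option linter.defProp false

namespace Pool.Agent.N444.Two.D1
open Pool.Agent.N444.Two Pool.Agent.H122R2.N6

def y0_4 : blk 0 4 = true := by decide +kernel
def y1_2 : blk 1 2 = true := by decide +kernel
def y2_1 : blk 2 1 = true := by decide +kernel
def y2_3 : blk 2 3 = true := by decide +kernel
def y3_0 : blk 3 0 = true := by decide +kernel
def y3_7 : blk 3 7 = true := by decide +kernel
def y4_0 : blk 4 0 = true := by decide +kernel
def y4_3 : blk 4 3 = true := by decide +kernel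
def y5_2 : blk 5 2 = true := by decide +kernel
def y6_3 : blk 6 3 = true := by decide +kernel
def y7_3 : blk 7 3 = true := by decide +kernel
def y7_5 : blk 7 5 = true := by decide +kernel
def y7_6 : blk 7 6 = true := by decide +kernel
def y8_3 : blk 8 3 = true := by decide +kernel
def y9_4 : blk 9 4 = true := by decide +kernel
def y12_0 : blk 12 0 = true := by decide +kernel
def y12_1 : blk 12 1 = true := by decide +kernel
def y12_3 : blk 12 3 = true := by decide +kernel
def y13_1 : blk 13 1 = true := by decide +kernel
def y13_3 : blk 13 3 = true := by decide +kernel
def y14_2 : blk 14 2 = true := by decide +kernel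
def y14_4 : blk 14 4 = true := by decide +kernel
def y17_0 : blk 17 0 = true := by decide +kernel
def y17_1 : blk 17 1 = true := by decide +kernel
def y17_2 : blk 17 2 = true := by decide +kernel
def y17_5 : blk 17 5 = true := by decide +kernel
def y18_3 : blk 18 3 = true := by decide +kernel
def y19_0 : blk 19 0 = true := by decide +kernel
def y19_4 : blk 19 4 = true := by decide +kernel
def y20_3 : blk 20 3 = true := by decide +kernel
def y20_4 : blk 20 4 = true := by decide +kernel
def y21_2 : blk 21 2 = true := by decide +kernel
def y21_4 : blk 21 4 = true := by decide +kernel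
def y22_1 : blk 22 1 = true := by decide +kernel
def y23_0 : blk 23 0 = true := by decide +kernel
def y23_2 : blk 23 2 = true := by decide +kernel

end Pool.Agent.N444.Two.D1
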