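import Pool.Agent.N444.Two.D1.Row

set_option autoImplicit false
set_option maxRecDepth 100000
set_option linter.defProp false

namespace Pool.Agent.N444.Two.D1
open Pool.Agent.N444.Two Pool.Agent.H122R2.N6

def y0_2 : blk 0 2 = true := by decide +kernel
def y1_0 : blk 1 0 = true := by decide +kernel
def y1_1 : blk 1 1 = true := by decide +kernel
def y1_3 : blk 1 3 = true := by decide +kernel
def y2_4 : blk 2 4 = true := by decide +kernel
def y2_5 : blk 2 5 = true := by decide +kernel
def y3_2 : blk 3 2 = true := by decide +kernel
def y4_4 : blk 4 4 = true := by decide +kernel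
def y4_6 : blk 4 6 = true := by decide +kernel
def y6_1 : blk 6 1 = true := by decide +kernel
def y7_2 : blk 7 2 = true := by decide +kernel
def y8_0 : blk 8 0 = true := by decide +kernel
def y8_5 : blk 8 5 = true := by decide +kernel
def y9_0 : blk 9 0 = true := by decide +kernel
def y9_1 : blk 9 1 = true := by decide +kernel
def y9_3 : blk 9 3 = true := by decide +kernel
def y9_6 : blk 9 6 = true := by decide +kernel
def y10_1 : blk 10 1 = true := by decide +kernel
def y10_2 : blk 10 2 = true := by decide +kernel
def y10_5 : blk 10 5 = true := by decide +kernel
def y11_0 : blk 11 0 = true := by decide +kernel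
def y11_1 : blk 11 1 = true := by decide +kernel
def y11_3 : blk 11 3 = true := by decide +kernel
def y13_2 : blk 13 2 = true := by decide +kernel
def y14_1 : blk 14 1 = true := by decide +kernel
def y14_3 : blk 14 3 = true := by decide +kernel
def y16_0 : blk 16 0 = true := by decide +kernel
def y17_4 : blk 17 4 = true := by decide +kernel
def y19_1 : blk 19 1 = true := by decide +kernel
def y19_3 : blk 19 3 = true := by decide +kernel
def y20_2 : blk 20 2 = true := by decide +kernel
def y21_0 : blk 21 0 = true := by decide +kernel
def y22_2 : blk 22 2 = true := by decide +kernel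
def y23_4 : blk 23 4 = true := by decide +kernel
def y23_5 : blk 23 5 = true := by decide +kernel

end Pool.Agent.N444.Two.D1
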