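import Pool.Agent.N444.Two.D1.Row

set_option autoImplicit false
set_option maxRecDepth 100000
set_option linter.defProp false

namespace Pool.Agent.N444.Two.D1
open Pool.Agent.N444.Two Pool.Agent.H122R2.N6

def y3_1 : blk 3 1 = true := by decide +kernel
def y3_4 : blk 3 4 = true := by decide +kernel
def y3_5 : blk 3 5 = true := by decide +kernel
def y3_6 : blk 3 6 = true := by decide +kernel
def y5_1 : blk 5 1 = true := by decide +kernel
def y5_3 : blk 5 3 = true := by decide +kernel
def y6_2 : blk 6 2 = true := by decide +kernel
def y6_4 : blk 6 4 = true := by decide +kernel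
def y7_4 : blk 7 4 = true := by decide +kernel
def y8_1 : blk 8 1 = true := by decide +kernel
def y9_2 : blk 9 2 = true := by decide +kernel
def y10_0 : blk 10 0 = true := by decide +kernel
def y10_3 : blk 10 3 = true := by decide +kernel
def y10_6 : blk 10 6 = true := by decide +kernel
def y11_2 : blk 11 2 = true := by decide +kernel
def y12_2 : blk 12 2 = true := by decide +kernel
def y12_4 : blk 12 4 = true := by decide +kernel
def y13_4 : blk 13 4 = true := by decide +kernel
def y14_0 : blk 14 0 = true := by decide +kernel
def y14_5 : blk 14 5 = true := by decide +kernel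
def y15_0 : blk 15 0 = true := by decide +kernel
def y15_1 : blk 15 1 = true := by decide +kernel
def y15_3 : blk 15 3 = true := by decide +kernel
def y15_5 : blk 15 5 = true := by decide +kernel
def y16_3 : blk 16 3 = true := by decide +kernel
def y16_6 : blk 16 6 = true := by decide +kernel
def y17_3 : blk 17 3 = true := by decide +kernel
def y17_6 : blk 17 6 = true := by decide +kernel
def y18_0 : blk 18 0 = true := by decide +kernel
def y18_1 : blk 18 1 = true := by decide +kernel
def y18_2 : blk 18 2 = true := by decide +kernel
def y19_2 : blk 19 2 = true := by decide +kernel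
def y20_0 : blk 20 0 = true := by decide +kernel
def y21_5 : blk 21 5 = true := by decide +kernel
def y22_0 : blk 22 0 = true := by decide +kernel
def y23_3 : blk 23 3 = true := by decide +kernel

end Pool.Agent.N444.Two.D1
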