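import Pool.Agent.N444.Two.D1.TabL
import Pool.Agent.N444.Two.Cert

set_option autoImplicit false
set_option maxRecDepth 100000
set_option linter.defProp false

namespace Pool.Agent.N444.Two.D1
open Pool.Agent.N444.Two Pool.Agent.H122R2.N6

def s00000000 : sym4 false q4 0 0 0 0 0 0 0 0 = true := by decide +kernel
def s00000001 : sym4 false q4 0 0 0 0 0 0 0 1 = true := by decide +kernel
def s00000010 : sym4 false q4 0 0 0 0 0 0 1 0 = true := by decide +kernel
def s00000011 : sym4 false q4 0 0 0 0 0 0 1 1 = true := by decide +kernel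
def s00000100 : sym4 false q4 0 0 0 0 0 1 0 0 = true := by decide +kernel
def s00000101 : sym4 false q4 0 0 0 0 0 1 0 1 = true := by decide +kernel
def s00000110 : sym4 false q4 0 0 0 0 0 1 1 0 = true := by decide +kernel
def s00000111 : sym4 false q4 0 0 0 0 0 1 1 1 = true := by decide +kernel
def s00001000 : sym4 false q4 0 0 0 0 1 0 0 0 = true := by decide +kernel
def s00001001 : sym4 false q4 0 0 0 0 1 0 0 1 = true := by decide +kernel
def s00001010 : sym4 false q4 0 0 0 0 1 0 1 0 = true := by decide +kernel
def s00001011 : sym4 false q4 0 0 0 0 1 0 1 1 = true := by decide +kernel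
def s00001100 : sym4 false q4 0 0 0 0 1 1 0 0 = true := by decide +kernel
def s00001101 : sym4 false q4 0 0 0 0 1 1 0 1 = true := by decide +kernel
def s00001110 : sym4 false q4 0 0 0 0 1 1 1 0 = true := by decide +kernel
def s00001111 : sym4 false q4 0 0 0 0 1 1 1 1 = true := by decide +kernel
def s00010000 : sym4 false q4 0 0 0 1 0 0 0 0 = true := by decide +kernel
def s00010001 : sym4 false q4 0 0 0 1 0 0 0 1 = true := by decide +kernel
def s00010010 : sym4 false q4 0 0 0 1 0 0 1 0 = true := by decide +kernel
def s00010011 : sym4 false q4 0 0 0 1 0 0 1 1 = true := by decide +kernel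
def s00010100 : sym4 false q4 0 0 0 1 0 1 0 0 = true := by decide +kernel
def s00010101 : sym4 false q4 0 0 0 1 0 1 0 1 = true := by decide +kernel
def s00010110 : sym4 false q4 0 0 0 1 0 1 1 0 = true := by decide +kernel
def s00010111 : sym4 false q4 0 0 0 1 0 1 1 1 = true := by decide +kernel
def s00011000 : sym4 false q4 0 0 0 1 1 0 0 0 = true := by decide +kernel
def s00011001 : sym4 false q4 0 0 0 1 1 0 0 1 = true := by decide +kernel
def s00011010 : sym4 false q4 0 0 0 1 1 0 1 0 = true := by decide +kernel
def s00011011 : sym4 false q4 0 0 0 1 1 0 1 1 = true := by decide +kernel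
def s00011100 : sym4 false q4 0 0 0 1 1 1 0 0 = true := by decide +kernel
def s00011101 : sym4 false q4 0 0 0 1 1 1 0 1 = true := by decide +kernel
def s00011110 : sym4 false q4 0 0 0 1 1 1 1 0 = true := by decide +kernel
def s00011111 : sym4 false q4 0 0 0 1 1 1 1 1 = true := by decide +kernel
def s00100000 : sym4 false q4 0 0 1 0 0 0 0 0 = true := by decide +kernel
def s00100001 : sym4 false q4 0 0 1 0 0 0 0 1 = true := by decide +kernel
def s00100010 : sym4 false q4 0 0 1 0 0 0 1 0 = true := by decide +kernel
def s00100011 : sym4 false q4 0 0 1 0 0 0 1 1 = true := by decide +kernel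
def s00100100 : sym4 false q4 0 0 1 0 0 1 0 0 = true := by decide +kernel
def s00100101 : sym4 false q4 0 0 1 0 0 1 0 1 = true := by decide +kernel
def s00100110 : sym4 false q4 0 0 1 0 0 1 1 0 = true := by decide +kernel
def s00100111 : sym4 false q4 0 0 1 0 0 1 1 1 = true := by decide +kernel
def s00101000 : sym4 false q4 0 0 1 0 1 0 0 0 = true := by decide +kernel
def s00101001 : sym4 false q4 0 0 1 0 1 0 0 1 = true := by decide +kernel
def s00101010 : sym4 false q4 0 0 1 0 1 0 1 0 = true := by decide +kernel
def s00101011 : sym4 false q4 0 0 1 0 1 0 1 1 = true := by decide +kernel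
def s00101100 : sym4 false q4 0 0 1 0 1 1 0 0 = true := by decide +kernel
def s00101101 : sym4 false q4 0 0 1 0 1 1 0 1 = true := by decide +kernel
def s00101110 : sym4 false q4 0 0 1 0 1 1 1 0 = true := by decide +kernel
def s00101111 : sym4 false q4 0 0 1 0 1 1 1 1 = true := by decide +kernel
def s00110000 : sym4 false q4 0 0 1 1 0 0 0 0 = true := by decide +kernel
def s00110001 : sym4 false q4 0 0 1 1 0 0 0 1 = true := by decide +kernel
def s00110010 : sym4 false q4 0 0 1 1 0 0 1 0 = true := by decide +kernel
def s00110011 : sym4 false q4 0 0 1 1 0 0 1 1 = true := by decide +kernel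
def s00110100 : sym4 false q4 0 0 1 1 0 1 0 0 = true := by decide +kernel
def s00110101 : sym4 false q4 0 0 1 1 0 1 0 1 = true := by decide +kernel
def s00110110 : sym4 false q4 0 0 1 1 0 1 1 0 = true := by decide +kernel
def s00110111 : sym4 false q4 0 0 1 1 0 1 1 1 = true := by decide +kernel
def s00111000 : sym4 false q4 0 0 1 1 1 0 0 0 = true := by decide +kernel
def s00111001 : sym4 false q4 0 0 1 1 1 0 0 1 = true := by decide +kernel
def s00111010 : sym4 false q4 0 0 1 1 1 0 1 0 = true := by decide +kernel
def s00111011 : sym4 false q4 0 0 1 1 1 0 1 1 = true := by decide +kernel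
def s00111100 : sym4 false q4 0 0 1 1 1 1 0 0 = true := by decide +kernel
def s00111101 : sym4 false q4 0 0 1 1 1 1 0 1 = true := by decide +kernel
def s00111110 : sym4 false q4 0 0 1 1 1 1 1 0 = true := by decide +kernel
def s00111111 : sym4 false q4 0 0 1 1 1 1 1 1 = true := by decide +kernel

end Pool.Agent.N444.Two.D1
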