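import Pool.Agent.N444.Two.D1.TabL
import Pool.Agent.N444.Two.Cert

set_option autoImplicit false
set_option maxRecDepth 100000
set_option linter.defProp false

namespace Pool.Agent.N444.Two.D1
open Pool.Agent.N444.Two Pool.Agent.H122R2.N6

def s10000000 : sym4 false q4 1 0 0 0 0 0 0 0 = true := by decide +kernel
def s10000001 : sym4 false q4 1 0 0 0 0 0 0 1 = true := by decide +kernel
def s10000010 : sym4 false q4 1 0 0 0 0 0 1 0 = true := by decide +kernel
def s10000011 : sym4 false q4 1 0 0 0 0 0 1 1 = true := by decide +kernel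
def s10000100 : sym4 false q4 1 0 0 0 0 1 0 0 = true := by decide +kernel
def s10000101 : sym4 false q4 1 0 0 0 0 1 0 1 = true := by decide +kernel
def s10000110 : sym4 false q4 1 0 0 0 0 1 1 0 = true := by decide +kernel
def s10000111 : sym4 false q4 1 0 0 0 0 1 1 1 = true := by decide +kernel
def s10001000 : sym4 false q4 1 0 0 0 1 0 0 0 = true := by decide +kernel
def s10001001 : sym4 false q4 1 0 0 0 1 0 0 1 = true := by decide +kernel
def s10001010 : sym4 false q4 1 0 0 0 1 0 1 0 = true := by decide +kernel
def s10001011 : sym4 false q4 1 0 0 0 1 0 1 1 = true := by decide +kernel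
def s10001100 : sym4 false q4 1 0 0 0 1 1 0 0 = true := by decide +kernel
def s10001101 : sym4 false q4 1 0 0 0 1 1 0 1 = true := by decide +kernel
def s10001110 : sym4 false q4 1 0 0 0 1 1 1 0 = true := by decide +kernel
def s10001111 : sym4 false q4 1 0 0 0 1 1 1 1 = true := by decide +kernel
def s10010000 : sym4 false q4 1 0 0 1 0 0 0 0 = true := by decide +kernel
def s10010001 : sym4 false q4 1 0 0 1 0 0 0 1 = true := by decide +kernel
def s10010010 : sym4 false q4 1 0 0 1 0 0 1 0 = true := by decide +kernel
def s10010011 : sym4 false q4 1 0 0 1 0 0 1 1 = true := by decide +kernel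
def s10010100 : sym4 false q4 1 0 0 1 0 1 0 0 = true := by decide +kernel
def s10010101 : sym4 false q4 1 0 0 1 0 1 0 1 = true := by decide +kernel
def s10010110 : sym4 false q4 1 0 0 1 0 1 1 0 = true := by decide +kernel
def s10010111 : sym4 false q4 1 0 0 1 0 1 1 1 = true := by decide +kernel
def s10011000 : sym4 false q4 1 0 0 1 1 0 0 0 = true := by decide +kernel
def s10011001 : sym4 false q4 1 0 0 1 1 0 0 1 = true := by decide +kernel
def s10011010 : sym4 false q4 1 0 0 1 1 0 1 0 = true := by decide +kernel
def s10011011 : sym4 false q4 1 0 0 1 1 0 1 1 = true := by decide +kernel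
def s10011100 : sym4 false q4 1 0 0 1 1 1 0 0 = true := by decide +kernel
def s10011101 : sym4 false q4 1 0 0 1 1 1 0 1 = true := by decide +kernel
def s10011110 : sym4 false q4 1 0 0 1 1 1 1 0 = true := by decide +kernel
def s10011111 : sym4 false q4 1 0 0 1 1 1 1 1 = true := by decide +kernel
def s10100000 : sym4 false q4 1 0 1 0 0 0 0 0 = true := by decide +kernel
def s10100001 : sym4 false q4 1 0 1 0 0 0 0 1 = true := by decide +kernel
def s10100010 : sym4 false q4 1 0 1 0 0 0 1 0 = true := by decide +kernel
def s10100011 : sym4 false q4 1 0 1 0 0 0 1 1 = true := by decide +kernel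
def s10100100 : sym4 false q4 1 0 1 0 0 1 0 0 = true := by decide +kernel
def s10100101 : sym4 false q4 1 0 1 0 0 1 0 1 = true := by decide +kernel
def s10100110 : sym4 false q4 1 0 1 0 0 1 1 0 = true := by decide +kernel
def s10100111 : sym4 false q4 1 0 1 0 0 1 1 1 = true := by decide +kernel
def s10101000 : sym4 false q4 1 0 1 0 1 0 0 0 = true := by decide +kernel
def s10101001 : sym4 false q4 1 0 1 0 1 0 0 1 = true := by decide +kernel
def s10101010 : sym4 false q4 1 0 1 0 1 0 1 0 = true := by decide +kernel
def s10101011 : sym4 false q4 1 0 1 0 1 0 1 1 = true := by decide +kernel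
def s10101100 : sym4 false q4 1 0 1 0 1 1 0 0 = true := by decide +kernel
def s10101101 : sym4 false q4 1 0 1 0 1 1 0 1 = true := by decide +kernel
def s10101110 : sym4 false q4 1 0 1 0 1 1 1 0 = true := by decide +kernel
def s10101111 : sym4 false q4 1 0 1 0 1 1 1 1 = true := by decide +kernel
def s10110000 : sym4 false q4 1 0 1 1 0 0 0 0 = true := by decide +kernel
def s10110001 : sym4 false q4 1 0 1 1 0 0 0 1 = true := by decide +kernel
def s10110010 : sym4 false q4 1 0 1 1 0 0 1 0 = true := by decide +kernel
def s10110011 : sym4 false q4 1 0 1 1 0 0 1 1 = true := by decide +kernel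
def s10110100 : sym4 false q4 1 0 1 1 0 1 0 0 = true := by decide +kernel
def s10110101 : sym4 false q4 1 0 1 1 0 1 0 1 = true := by decide +kernel
def s10110110 : sym4 false q4 1 0 1 1 0 1 1 0 = true := by decide +kernel
def s10110111 : sym4 false q4 1 0 1 1 0 1 1 1 = true := by decide +kernel
def s10111000 : sym4 false q4 1 0 1 1 1 0 0 0 = true := by decide +kernel
def s10111001 : sym4 false q4 1 0 1 1 1 0 0 1 = true := by decide +kernel
def s10111010 : sym4 false q4 1 0 1 1 1 0 1 0 = true := by decide +kernel
def s10111011 : sym4 false q4 1 0 1 1 1 0 1 1 = true := by decide +kernel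
def s10111100 : sym4 false q4 1 0 1 1 1 1 0 0 = true := by decide +kernel
def s10111101 : sym4 false q4 1 0 1 1 1 1 0 1 = true := by decide +kernel
def s10111110 : sym4 false q4 1 0 1 1 1 1 1 0 = true := by decide +kernel
def s10111111 : sym4 false q4 1 0 1 1 1 1 1 1 = true := by decide +kernel

end Pool.Agent.N444.Two.D1
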