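import Pool.Agent.N444.Two.D1.TabL
import Pool.Agent.N444.Two.Cert

set_option autoImplicit false
set_option maxRecDepth 100000
set_option linter.defProp false

namespace Pool.Agent.N444.Two.D1
open Pool.Agent.N444.Two Pool.Agent.H122R2.N6

def s01000000 : sym4 false q4 0 1 0 0 0 0 0 0 = true := by decide +kernel
def s01000001 : sym4 false q4 0 1 0 0 0 0 0 1 = true := by decide +kernel
def s01000010 : sym4 false q4 0 1 0 0 0 0 1 0 = true := by decide +kernel
def s01000011 : sym4 false q4 0 1 0 0 0 0 1 1 = true := by decide +kernel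
def s01000100 : sym4 false q4 0 1 0 0 0 1 0 0 = true := by decide +kernel
def s01000101 : sym4 false q4 0 1 0 0 0 1 0 1 = true := by decide +kernel
def s01000110 : sym4 false q4 0 1 0 0 0 1 1 0 = true := by decide +kernel
def s01000111 : sym4 false q4 0 1 0 0 0 1 1 1 = true := by decide +kernel
def s01001000 : sym4 false q4 0 1 0 0 1 0 0 0 = true := by decide +kernel
def s01001001 : sym4 false q4 0 1 0 0 1 0 0 1 = true := by decide +kernel
def s01001010 : sym4 false q4 0 1 0 0 1 0 1 0 = true := by decide +kernel
def s01001011 : sym4 false q4 0 1 0 0 1 0 1 1 = true := by decide +kernel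
def s01001100 : sym4 false q4 0 1 0 0 1 1 0 0 = true := by decide +kernel
def s01001101 : sym4 false q4 0 1 0 0 1 1 0 1 = true := by decide +kernel
def s01001110 : sym4 false q4 0 1 0 0 1 1 1 0 = true := by decide +kernel
def s01001111 : sym4 false q4 0 1 0 0 1 1 1 1 = true := by decide +kernel
def s01010000 : sym4 false q4 0 1 0 1 0 0 0 0 = true := by decide +kernel
def s01010001 : sym4 false q4 0 1 0 1 0 0 0 1 = true := by decide +kernel
def s01010010 : sym4 false q4 0 1 0 1 0 0 1 0 = true := by decide +kernel
def s01010011 : sym4 false q4 0 1 0 1 0 0 1 1 = true := by decide +kernel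
def s01010100 : sym4 false q4 0 1 0 1 0 1 0 0 = true := by decide +kernel
def s01010101 : sym4 false q4 0 1 0 1 0 1 0 1 = true := by decide +kernel
def s01010110 : sym4 false q4 0 1 0 1 0 1 1 0 = true := by decide +kernel
def s01010111 : sym4 false q4 0 1 0 1 0 1 1 1 = true := by decide +kernel
def s01011000 : sym4 false q4 0 1 0 1 1 0 0 0 = true := by decide +kernel
def s01011001 : sym4 false q4 0 1 0 1 1 0 0 1 = true := by decide +kernel
def s01011010 : sym4 false q4 0 1 0 1 1 0 1 0 = true := by decide +kernel
def s01011011 : sym4 false q4 0 1 0 1 1 0 1 1 = true := by decide +kernel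
def s01011100 : sym4 false q4 0 1 0 1 1 1 0 0 = true := by decide +kernel
def s01011101 : sym4 false q4 0 1 0 1 1 1 0 1 = true := by decide +kernel
def s01011110 : sym4 false q4 0 1 0 1 1 1 1 0 = true := by decide +kernel
def s01011111 : sym4 false q4 0 1 0 1 1 1 1 1 = true := by decide +kernel
def s01100000 : sym4 false q4 0 1 1 0 0 0 0 0 = true := by decide +kernel
def s01100001 : sym4 false q4 0 1 1 0 0 0 0 1 = true := by decide +kernel
def s01100010 : sym4 false q4 0 1 1 0 0 0 1 0 = true := by decide +kernel
def s01100011 : sym4 false q4 0 1 1 0 0 0 1 1 = true := by decide +kernel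
def s01100100 : sym4 false q4 0 1 1 0 0 1 0 0 = true := by decide +kernel
def s01100101 : sym4 false q4 0 1 1 0 0 1 0 1 = true := by decide +kernel
def s01100110 : sym4 false q4 0 1 1 0 0 1 1 0 = true := by decide +kernel
def s01100111 : sym4 false q4 0 1 1 0 0 1 1 1 = true := by decide +kernel
def s01101000 : sym4 false q4 0 1 1 0 1 0 0 0 = true := by decide +kernel
def s01101001 : sym4 false q4 0 1 1 0 1 0 0 1 = true := by decide +kernel
def s01101010 : sym4 false q4 0 1 1 0 1 0 1 0 = true := by decide +kernel
def s01101011 : sym4 false q4 0 1 1 0 1 0 1 1 = true := by decide +kernel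
def s01101100 : sym4 false q4 0 1 1 0 1 1 0 0 = true := by decide +kernel
def s01101101 : sym4 false q4 0 1 1 0 1 1 0 1 = true := by decide +kernel
def s01101110 : sym4 false q4 0 1 1 0 1 1 1 0 = true := by decide +kernel
def s01101111 : sym4 false q4 0 1 1 0 1 1 1 1 = true := by decide +kernel
def s01110000 : sym4 false q4 0 1 1 1 0 0 0 0 = true := by decide +kernel
def s01110001 : sym4 false q4 0 1 1 1 0 0 0 1 = true := by decide +kernel
def s01110010 : sym4 false q4 0 1 1 1 0 0 1 0 = true := by decide +kernel
def s01110011 : sym4 false q4 0 1 1 1 0 0 1 1 = true := by decide +kernel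
def s01110100 : sym4 false q4 0 1 1 1 0 1 0 0 = true := by decide +kernel
def s01110101 : sym4 false q4 0 1 1 1 0 1 0 1 = true := by decide +kernel
def s01110110 : sym4 false q4 0 1 1 1 0 1 1 0 = true := by decide +kernel
def s01110111 : sym4 false q4 0 1 1 1 0 1 1 1 = true := by decide +kernel
def s01111000 : sym4 false q4 0 1 1 1 1 0 0 0 = true := by decide +kernel
def s01111001 : sym4 false q4 0 1 1 1 1 0 0 1 = true := by decide +kernel
def s01111010 : sym4 false q4 0 1 1 1 1 0 1 0 = true := by decide +kernel
def s01111011 : sym4 false q4 0 1 1 1 1 0 1 1 = true := by decide +kernel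
def s01111100 : sym4 false q4 0 1 1 1 1 1 0 0 = true := by decide +kernel
def s01111101 : sym4 false q4 0 1 1 1 1 1 0 1 = true := by decide +kernel
def s01111110 : sym4 false q4 0 1 1 1 1 1 1 0 = true := by decide +kernel
def s01111111 : sym4 false q4 0 1 1 1 1 1 1 1 = true := by decide +kernel

end Pool.Agent.N444.Two.D1
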