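import Pool.Agent.N444.Two.D1.TabL
import Pool.Agent.N444.Two.Cert

set_option autoImplicit false
set_option maxRecDepth 100000
set_option linter.defProp false

namespace Pool.Agent.N444.Two.D1
open Pool.Agent.N444.Two Pool.Agent.H122R2.N6

def s11000000 : sym4 false q4 1 1 0 0 0 0 0 0 = true := by decide +kernel
def s11000001 : sym4 false q4 1 1 0 0 0 0 0 1 = true := by decide +kernel
def s11000010 : sym4 false q4 1 1 0 0 0 0 1 0 = true := by decide +kernel
def s11000011 : sym4 false q4 1 1 0 0 0 0 1 1 = true := by decide +kernel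
def s11000100 : sym4 false q4 1 1 0 0 0 1 0 0 = true := by decide +kernel
def s11000101 : sym4 false q4 1 1 0 0 0 1 0 1 = true := by decide +kernel
def s11000110 : sym4 false q4 1 1 0 0 0 1 1 0 = true := by decide +kernel
def s11000111 : sym4 false q4 1 1 0 0 0 1 1 1 = true := by decide +kernel
def s11001000 : sym4 false q4 1 1 0 0 1 0 0 0 = true := by decide +kernel
def s11001001 : sym4 false q4 1 1 0 0 1 0 0 1 = true := by decide +kernel
def s11001010 : sym4 false q4 1 1 0 0 1 0 1 0 = true := by decide +kernel
def s11001011 : sym4 false q4 1 1 0 0 1 0 1 1 = true := by decide +kernel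
def s11001100 : sym4 false q4 1 1 0 0 1 1 0 0 = true := by decide +kernel
def s11001101 : sym4 false q4 1 1 0 0 1 1 0 1 = true := by decide +kernel
def s11001110 : sym4 false q4 1 1 0 0 1 1 1 0 = true := by decide +kernel
def s11001111 : sym4 false q4 1 1 0 0 1 1 1 1 = true := by decide +kernel
def s11010000 : sym4 false q4 1 1 0 1 0 0 0 0 = true := by decide +kernel
def s11010001 : sym4 false q4 1 1 0 1 0 0 0 1 = true := by decide +kernel
def s11010010 : sym4 false q4 1 1 0 1 0 0 1 0 = true := by decide +kernel
def s11010011 : sym4 false q4 1 1 0 1 0 0 1 1 = true := by decide +kernel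
def s11010100 : sym4 false q4 1 1 0 1 0 1 0 0 = true := by decide +kernel
def s11010101 : sym4 false q4 1 1 0 1 0 1 0 1 = true := by decide +kernel
def s11010110 : sym4 false q4 1 1 0 1 0 1 1 0 = true := by decide +kernel
def s11010111 : sym4 false q4 1 1 0 1 0 1 1 1 = true := by decide +kernel
def s11011000 : sym4 false q4 1 1 0 1 1 0 0 0 = true := by decide +kernel
def s11011001 : sym4 false q4 1 1 0 1 1 0 0 1 = true := by decide +kernel
def s11011010 : sym4 false q4 1 1 0 1 1 0 1 0 = true := by decide +kernel
def s11011011 : sym4 false q4 1 1 0 1 1 0 1 1 = true := by decide +kernel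
def s11011100 : sym4 false q4 1 1 0 1 1 1 0 0 = true := by decide +kernel
def s11011101 : sym4 false q4 1 1 0 1 1 1 0 1 = true := by decide +kernel
def s11011110 : sym4 false q4 1 1 0 1 1 1 1 0 = true := by decide +kernel
def s11011111 : sym4 false q4 1 1 0 1 1 1 1 1 = true := by decide +kernel
def s11100000 : sym4 false q4 1 1 1 0 0 0 0 0 = true := by decide +kernel
def s11100001 : sym4 false q4 1 1 1 0 0 0 0 1 = true := by decide +kernel
def s11100010 : sym4 false q4 1 1 1 0 0 0 1 0 = true := by decide +kernel
def s11100011 : sym4 false q4 1 1 1 0 0 0 1 1 = true := by decide +kernel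
def s11100100 : sym4 false q4 1 1 1 0 0 1 0 0 = true := by decide +kernel
def s11100101 : sym4 false q4 1 1 1 0 0 1 0 1 = true := by decide +kernel
def s11100110 : sym4 false q4 1 1 1 0 0 1 1 0 = true := by decide +kernel
def s11100111 : sym4 false q4 1 1 1 0 0 1 1 1 = true := by decide +kernel
def s11101000 : sym4 false q4 1 1 1 0 1 0 0 0 = true := by decide +kernel
def s11101001 : sym4 false q4 1 1 1 0 1 0 0 1 = true := by decide +kernel
def s11101010 : sym4 false q4 1 1 1 0 1 0 1 0 = true := by decide +kernel
def s11101011 : sym4 false q4 1 1 1 0 1 0 1 1 = true := by decide +kernel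
def s11101100 : sym4 false q4 1 1 1 0 1 1 0 0 = true := by decide +kernel
def s11101101 : sym4 false q4 1 1 1 0 1 1 0 1 = true := by decide +kernel
def s11101110 : sym4 false q4 1 1 1 0 1 1 1 0 = true := by decide +kernel
def s11101111 : sym4 false q4 1 1 1 0 1 1 1 1 = true := by decide +kernel
def s11110000 : sym4 false q4 1 1 1 1 0 0 0 0 = true := by decide +kernel
def s11110001 : sym4 false q4 1 1 1 1 0 0 0 1 = true := by decide +kernel
def s11110010 : sym4 false q4 1 1 1 1 0 0 1 0 = true := by decide +kernel
def s11110011 : sym4 false q4 1 1 1 1 0 0 1 1 = true := by decide +kernel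
def s11110100 : sym4 false q4 1 1 1 1 0 1 0 0 = true := by decide +kernel
def s11110101 : sym4 false q4 1 1 1 1 0 1 0 1 = true := by decide +kernel
def s11110110 : sym4 false q4 1 1 1 1 0 1 1 0 = true := by decide +kernel
def s11110111 : sym4 false q4 1 1 1 1 0 1 1 1 = true := by decide +kernel
def s11111000 : sym4 false q4 1 1 1 1 1 0 0 0 = true := by decide +kernel
def s11111001 : sym4 false q4 1 1 1 1 1 0 0 1 = true := by decide +kernel
def s11111010 : sym4 false q4 1 1 1 1 1 0 1 0 = true := by decide +kernel
def s11111011 : sym4 false q4 1 1 1 1 1 0 1 1 = true := by decide +kernel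
def s11111100 : sym4 false q4 1 1 1 1 1 1 0 0 = true := by decide +kernel
def s11111101 : sym4 false q4 1 1 1 1 1 1 0 1 = true := by decide +kernel
def s11111110 : sym4 false q4 1 1 1 1 1 1 1 0 = true := by decide +kernel
def s11111111 : sym4 false q4 1 1 1 1 1 1 1 1 = true := by decide +kernel

end Pool.Agent.N444.Two.D1
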