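import Pool.Agent.N444.Two.D1.Map
import Pool.Agent.N444.Two.D1.Sym0
import Pool.Agent.N444.Two.D1.Sym1
import Pool.Agent.N444.Two.D1.Sym2
import Pool.Agent.N444.Two.D1.Sym3
import Pool.Agent.N444.Two.D1.Chk0
import Pool.Agent.N444.Two.D1.Chk1
import Pool.Agent.N444.Two.D1.Chk2
import Pool.Agent.N444.Two.D1.Chk3
import Pool.Agent.N444.Two.D1.Psd0
import Pool.Agent.N444.Two.D1.Psd1
import Pool.Agent.N444.Two.D1.Psd2
import Pool.Agent.N444.Two.D1.Psd3

set_option autoImplicit false
set_option maxRecDepth 100000
set_option linter.defProp false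

namespace Pool.Agent.N444.Two.D1
open Pool.Agent.N444.Two Pool.Agent.H122R2.N6

theorem hreps : Reps false q4 q2 CST := by
  intro c0 c1 c2 c3 c4 b012 b013 b023 b123 b014 b024 b124 b034 b134 b234 hc0 hc1 hc2 hc3 hc4 hb012 hb013 hb023 hb123 hb014 hb024 hb124 hb034 hb134 hb234 h5 ht
  have h : part c0 c1 c2 c3 c4 b012 b013 = true := by
    rcases hc0 with rfl | rfl <;> rcases hc1 with rfl | rfl <;> rcases hc2 with rfl | rfl <;>
      rcases hc3 with rfl | rfl <;> rcases hc4 with rfl | rfl <;> rcases hb012 with rfl | rfl <;>
      rcases hb013 with rfl | rfl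
    exacts [p0000000, p0000001, p0000010, p0000011, p0000100, p0000101, p0000110, p0000111, p0001000, 
      p0001001, p0001010, p0001011, p0001100, p0001101, p0001110, p0001111, p0010000, p0010001, 
      p0010010, p0010011, p0010100, p0010101, p0010110, p0010111, p0011000, p0011001, p0011010, 
      p0011011, p0011100, p0011101, p0011110, p0011111, p0100000, p0100001, p0100010, p0100011, 
      p0100100, p0100101, p0100110, p0100111, p0101000, p0101001, p0101010, p0101011, p0101100, 
      p0101101, p0101110, p0101111, p0110000, p0110001, p0110010, p0110011, p0110100, p0110101, 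
      p0110110, p0110111, p0111000, p0111001, p0111010, p0111011, p0111100, p0111101, p0111110, 
      p0111111, p1000000, p1000001, p1000010, p1000011, p1000100, p1000101, p1000110, p1000111, 
      p1001000, p1001001, p1001010, p1001011, p1001100, p1001101, p1001110, p1001111, p1010000, 
      p1010001, p1010010, p1010011, p1010100, p1010101, p1010110, p1010111, p1011000, p1011001, 
      p1011010, p1011011, p1011100, p1011101, p1011110, p1011111, p1100000, p1100001, p1100010, 
      p1100011, p1100100, p1100101, p1100110, p1100111, p1101000, p1101001, p1101010, p1101011, 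
      p1101100, p1101101, p1101110, p1101111, p1110000, p1110001, p1110010, p1110011, p1110100, 
      p1110101, p1110110, p1110111, p1111000, p1111001, p1111010, p1111011, p1111100, p1111101, 
      p1111110, p1111111]
  have h2 := (B2_true (B2_true (B2_true (B2_true (B2_true (B2_true (B2_true (B2_true h hb023) hb123) hb014) hb024) hb124) hb034) hb134) hb234)
  have h3 := or_false_left h2 (by rw [ht]; rfl)
  exact or_false_left h3 h5

theorem hsym4 : Sym4 false q4 := by
  intro c0 c1 c2 c3 p0 p1 p2 p3 h0 h1 h2 h3 g0 g1 g2 g3
  rcases h0 with rfl | rfl <;> rcases h1 with rfl | rfl <;> rcases h2 with rfl | rfl <;>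
    rcases h3 with rfl | rfl <;> rcases g0 with rfl | rfl <;> rcases g1 with rfl | rfl <;>
    rcases g2 with rfl | rfl <;> rcases g3 with rfl | rfl
  exacts [s00000000, s00000001, s00000010, s00000011, s00000100, s00000101, s00000110, s00000111, 
      s00001000, s00001001, s00001010, s00001011, s00001100, s00001101, s00001110, s00001111, 
      s00010000, s00010001, s00010010, s00010011, s00010100, s00010101, s00010110, s00010111, 
      s00011000, s00011001, s00011010, s00011011, s00011100, s00011101, s00011110, s00011111, 
      s00100000, s00100001, s00100010, s00100011, s00100100, s00100101, s00100110, s00100111, 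
      s00101000, s00101001, s00101010, s00101011, s00101100, s00101101, s00101110, s00101111, 
      s00110000, s00110001, s00110010, s00110011, s00110100, s00110101, s00110110, s00110111, 
      s00111000, s00111001, s00111010, s00111011, s00111100, s00111101, s00111110, s00111111, 
      s01000000, s01000001, s01000010, s01000011, s01000100, s01000101, s01000110, s01000111, 
      s01001000, s01001001, s01001010, s01001011, s01001100, s01001101, s01001110, s01001111, 
      s01010000, s01010001, s01010010, s01010011, s01010100, s01010101, s01010110, s01010111, 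
      s01011000, s01011001, s01011010, s01011011, s01011100, s01011101, s01011110, s01011111, 
      s01100000, s01100001, s01100010, s01100011, s01100100, s01100101, s01100110, s01100111, 
      s01101000, s01101001, s01101010, s01101011, s01101100, s01101101, s01101110, s01101111, 
      s01110000, s01110001, s01110010, s01110011, s01110100, s01110101, s01110110, s01110111, 
      s01111000, s01111001, s01111010, s01111011, s01111100, s01111101, s01111110, s01111111, 
      s10000000, s10000001, s10000010, s10000011, s10000100, s10000101, s10000110, s10000111, 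
      s10001000, s10001001, s10001010, s10001011, s10001100, s10001101, s10001110, s10001111, 
      s10010000, s10010001, s10010010, s10010011, s10010100, s10010101, s10010110, s10010111, 
      s10011000, s10011001, s10011010, s10011011, s10011100, s10011101, s10011110, s10011111, 
      s10100000, s10100001, s10100010, s10100011, s10100100, s10100101, s10100110, s10100111, 
      s10101000, s10101001, s10101010, s10101011, s10101100, s10101101, s10101110, s10101111, 
      s10110000, s10110001, s10110010, s10110011, s10110100, s10110101, s10110110, s10110111, 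
      s10111000, s10111001, s10111010, s10111011, s10111100, s10111101, s10111110, s10111111, 
      s11000000, s11000001, s11000010, s11000011, s11000100, s11000101, s11000110, s11000111, 
      s11001000, s11001001, s11001010, s11001011, s11001100, s11001101, s11001110, s11001111, 
      s11010000, s11010001, s11010010, s11010011, s11010100, s11010101, s11010110, s11010111, 
      s11011000, s11011001, s11011010, s11011011, s11011100, s11011101, s11011110, s11011111, 
      s11100000, s11100001, s11100010, s11100011, s11100100, s11100101, s11100110, s11100111, 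
      s11101000, s11101001, s11101010, s11101011, s11101100, s11101101, s11101110, s11101111, 
      s11110000, s11110001, s11110010, s11110011, s11110100, s11110101, s11110110, s11110111, 
      s11111000, s11111001, s11111010, s11111011, s11111100, s11111101, s11111110, s11111111]

theorem hnr0 : (nall RR fun r => Nat.ble (nr r) 128) = true := by decide +kernel

theorem hrows : Rows tq l4 kr er mr nr ct 2147483648 1152921504606846976 WW DD NN PP DL RR := by
  intro r i hr hi
  have hn : nr r ≤ 128 := Nat.le_of_ble_eq_true (nall_true hnr0 r hr)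
  have hq : i / 16 < 8 := by omega
  have h : blk r (i / 16) = true := by
    have hr' : r < 24 := hr
    generalize i / 16 = q at hq
    interval_cases r <;> interval_cases q
    exacts [y0_0, y0_1, y0_2, y0_3, y0_4, y0_5, y0_6, y0_7, y1_0, y1_1, y1_2, y1_3, y1_4, y1_5, y1_6, 
      y1_7, y2_0, y2_1, y2_2, y2_3, y2_4, y2_5, y2_6, y2_7, y3_0, y3_1, y3_2, y3_3, y3_4, y3_5, 
      y3_6, y3_7, y4_0, y4_1, y4_2, y4_3, y4_4, y4_5, y4_6, y4_7, y5_0, y5_1, y5_2, y5_3, y5_4, 
      y5_5, y5_6, y5_7, y6_0, y6_1, y6_2, y6_3, y6_4, y6_5, y6_6, y6_7, y7_0, y7_1, y7_2, y7_3, 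
      y7_4, y7_5, y7_6, y7_7, y8_0, y8_1, y8_2, y8_3, y8_4, y8_5, y8_6, y8_7, y9_0, y9_1, y9_2, 
      y9_3, y9_4, y9_5, y9_6, y9_7, y10_0, y10_1, y10_2, y10_3, y10_4, y10_5, y10_6, y10_7, 
      y11_0, y11_1, y11_2, y11_3, y11_4, y11_5, y11_6, y11_7, y12_0, y12_1, y12_2, y12_3, y12_4, 
      y12_5, y12_6, y12_7, y13_0, y13_1, y13_2, y13_3, y13_4, y13_5, y13_6, y13_7, y14_0, y14_1, 
      y14_2, y14_3, y14_4, y14_5, y14_6, y14_7, y15_0, y15_1, y15_2, y15_3, y15_4, y15_5, y15_6, 
      y15_7, y16_0, y16_1, y16_2, y16_3, y16_4, y16_5, y16_6, y16_7, y17_0, y17_1, y17_2, y17_3, 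
      y17_4, y17_5, y17_6, y17_7, y18_0, y18_1, y18_2, y18_3, y18_4, y18_5, y18_6, y18_7, y19_0, 
      y19_1, y19_2, y19_3, y19_4, y19_5, y19_6, y19_7, y20_0, y20_1, y20_2, y20_3, y20_4, y20_5, 
      y20_6, y20_7, y21_0, y21_1, y21_2, y21_3, y21_4, y21_5, y21_6, y21_7, y22_0, y22_1, y22_2, 
      y22_3, y22_4, y22_5, y22_6, y22_7, y23_0, y23_1, y23_2, y23_3, y23_4, y23_5, y23_6, y23_7]
  have h1 := nall_true h (i % 16) (Nat.mod_lt _ (by norm_num))
  have e : Nat.add (Nat.mul 16 (i / 16)) (i % 16) = i := Nat.div_add_mod i 16
  rw [e] at h1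
  refine or_false_left h1 ?_
  have : Nat.blt i (nr r) = true := Nat.ble_eq_true_of_le hi
  rw [this]
  rfl

theorem hkr (r : ℕ) (hr : r < RR) : kr r ≤ KM := Nat.le_of_ble_eq_true (nall_true hkr0 r hr)

theorem main {V : Type} [Fintype V] {E : V → V → V → ℕ} {k : V → ℕ} (hS : St false E k)
    (hN : ((NN : ℕ) : ℤ) * (Fintype.card V : ℤ) ≤ ((DD : ℕ) : ℤ) * ∑ x, (k x : ℤ)) :
    60 * ((WW : ℕ) : ℤ) * SE E ≤ (((CST : ℕ) : ℤ) - (15 * ((1152921504606846976 : ℕ) : ℤ) + 45 * ((1152921504606846976 : ℕ) : ℤ))) * (Fintype.card V : ℤ) ^ 3 :=
  final hS tq l4 rho pc q2 l2 kr er mr nr ct 2147483648 1152921504606846976 1152921504606846976 WW DD NN PP DL RR K2 KM CST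
    (by unfold PP; norm_num) hmap hrows hkr hck2 hsym4 hsym2 hreps hN

end Pool.Agent.N444.Two.D1
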