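import Pool.Agent.N444.Two.D1.TabL
import Pool.Agent.N444.Two.Cert

set_option autoImplicit false
set_option maxRecDepth 100000
set_option linter.defProp false

namespace Pool.Agent.N444.Two.D1
open Pool.Agent.N444.Two Pool.Agent.H122R2.N6

def hmap : mapck false RR rho pc nr er ct = true := by decide +kernel
def hsym2 : sym2 q2 = true := by decide +kernel
def hck2 : ck2 q2 l2 K2 2147483648 1152921504606846976 = true := by decide +kernel
def hkr0 : (nall RR fun r => Nat.ble (kr r) KM) = true := by decide +kernel

end Pool.Agent.N444.Two.D1
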