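import Pool.Agent.N444.Two.D1.Tab
import Pool.Agent.N444.Two.Cert

set_option autoImplicit false
set_option maxRecDepth 100000
set_option linter.defProp false

namespace Pool.Agent.N444.Two.D1
open Pool.Agent.N444.Two Pool.Agent.H122R2.N6

noncomputable def part (c0 c1 c2 c3 c4 b012 b013 : ℕ) : Bool := B2 fun b023 => B2 fun b123 => B2 fun b014 => B2 fun b024 => B2 fun b124 => B2 fun b034 => B2 fun b134 => B2 fun b234 => or (not (Nat.beq (tg c0 c1 c2 c3 c4 b012 b013 b023 b123 b014 b024 b124 b034 b134 b234) 4)) (or (five false c0 c1 c2 c3 c4 b012 b013 b023 b123 b014 b024 b124 b034 b134 b234) (chk false q4 q2 CST c0 c1 c2 c3 c4 b012 b013 b023 b123 b014 b024 b124 b034 b134 b234))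

end Pool.Agent.N444.Two.D1
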