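import Pool.Agent.N444.Two.D1.TabL
import Pool.Agent.N444.Two.Cert

set_option autoImplicit false
set_option maxRecDepth 100000
set_option linter.defProp false

namespace Pool.Agent.N444.Two.D1
open Pool.Agent.N444.Two Pool.Agent.H122R2.N6

noncomputable def rowc (r i : ℕ) : Bool :=
  row4 tq l4 kr er mr nr ct 2147483648 1152921504606846976 WW DD NN PP DL r i
/-- the rows `16 q ≤ i < 16 q + 16` of the table of the type `r` -/
noncomputable def blk (r q : ℕ) : Bool :=
  nall 16 fun i => or (not (Nat.blt (Nat.add (Nat.mul 16 q) i) (nr r))) (rowc r (Nat.add (Nat.mul 16 q) i))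

end Pool.Agent.N444.Two.D1
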